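import Pool.Agent.J6H44.UB.Crit

/-!
# The mean infection time at the critical probability, for every update family (answer to Q2)
-/

set_option autoImplicit false

namespace Pool.Agent.Results.MP_28b826_pr.MeanInfectionTime

open MeasureTheory ProbabilityTheory Set Filter Topology
open Pool.Agent.J6H44.UB
open scoped ENNReal

/-- the half plane of the sites with negative scalar product with `(cos θ, sin θ)` -/
def half (θ : ℝ) : Set Site := {x | (x.1 : ℝ) * Real.cos θ + (x.2 : ℝ) * Real.sin θ < 0}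

/-- the direction `(cos θ, sin θ)` is stable: the half plane is its own closure -/
def Stable (U : Finset (Finset Site)) (θ : ℝ) : Prop := cl U (half θ) = half θ

/-- subcritical families: the stable directions in every open semicircle have positive measure -/
def Subcritical (U : Finset (Finset Site)) : Prop :=
  ∀ α : ℝ, 0 < volume {θ : ℝ | α < θ ∧ θ < α + Real.pi ∧ Stable U θ}

variable {U : Finset (Finset Site)}

theorem Subcritical.nonempty (h : Subcritical U) : ∀ X ∈ U, X.Nonempty := by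
  intro X hX
  rw [Finset.nonempty_iff_ne_empty]
  rintro rfl
  have h1 : {θ : ℝ | (0 : ℝ) < θ ∧ θ < 0 + Real.pi ∧ Stable U θ} = ∅ := by
    ext θ
    simp only [mem_ofPred_eq, mem_empty_iff_false, iff_false, not_and]
    intro _ _ hs
    have h2 : (0 : Site) ∈ cl U (half θ) := cl_closed hX (fun e he => absurd he (Finset.notMem_empty e))
    rw [hs] at h2
    simp [half] at h2
  have h2 := h 0
  rw [h1, measure_empty] at h2
  exact lt_irrefl _ h2

theorem perc_one : Pr 1 (perc U) = 1 := by
  have h1 : ∀ x : Site, (Pr 1) {ω : Om | ω x = true}ᶜ = 0 := by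
    intro x
    have h2 : ({ω : Om | ω x = true}ᶜ : Set Om) = {ω : Om | ∀ y ∈ ({x} : Finset Site), ω y = false} := by
      ext ω
      simp
    rw [h2, prob_empty]
    have h3 := bern_false 1
    rw [clamp_eq zero_le_one le_rfl, sub_self, measureReal_eq_zero_iff] at h3
    rw [h3]
    simp
  have h2 : (Pr 1) (perc U)ᶜ = 0 := by
    refine measure_mono_null ?_ (measure_iUnion_null h1)
    intro ω hω
    by_contra hc
    rw [mem_iUnion] at hc
    push Not at hc
    apply hω
    show cl U (init ω) = univ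
    refine eq_univ_of_forall fun x => subset_cl ?_
    have := hc x
    rw [mem_compl_iff, not_not] at this
    exact this
  exact (prob_compl_eq_zero_iff meas_perc).1 h2

theorem pc_bdd : BddBelow {p : ℝ | 0 ≤ p ∧ p ≤ 1 ∧ Pr p (perc U) = 1} := ⟨0, fun _ h => h.1⟩

theorem pc_nonneg : 0 ≤ pc U := le_csInf ⟨1, zero_le_one, le_rfl, perc_one⟩ fun _ h => h.1

theorem pc_le_one : pc U ≤ 1 := csInf_le pc_bdd ⟨zero_le_one, le_rfl, perc_one⟩

/-- a finite blocked set prevents percolation at every parameter less than one -/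
theorem pc_eq_one_of_blocked (h : ∃ F : Finset Site, F.Nonempty ∧ Blocked U ↑F) : pc U = 1 := by
  obtain ⟨F, ⟨z, hz⟩, hF⟩ := h
  refine le_antisymm pc_le_one (le_csInf ⟨1, zero_le_one, le_rfl, perc_one⟩ ?_)
  rintro p ⟨hp0, hp1, hp⟩
  by_contra hc
  push Not at hc
  have h1 : (Pr p) {ω : Om | ∀ x ∈ F, ω x = false} ≠ 0 := by
    rw [prob_empty]
    have h2 := bern_false p
    rw [clamp_eq hp0 hp1] at h2
    have h3 : bern p {false} ≠ 0 := by
      intro h4
      rw [Measure.real, h4] at h2
      simp at h2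
      linarith
    exact pow_ne_zero _ h3
  apply h1
  have h2 : (Pr p) (perc U)ᶜ = 0 := (prob_compl_eq_zero_iff meas_perc).2 hp
  refine measure_mono_null ?_ h2
  intro ω hω hc2
  have h3 : z ∈ cl U (init ω) := by
    have : cl U (init ω) = univ := hc2
    rw [this]; trivial
  refine hF.disj (A := init ω) (fun x hx hx2 => ?_) z hz h3
  have h4 : ω x = true := hx2
  rw [hω x hx] at h4
  exact Bool.false_ne_true h4

theorem pc_lt_one (h : ¬ ∃ F : Finset Site, F.Nonempty ∧ Blocked U ↑F) : pc U < 1 := by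
  obtain ⟨R, hR1, hR⟩ := exists_range U
  have hR0 : (1 : ℝ) ≤ R := by exact_mod_cast hR1
  set K : ℝ := 5 * (4 * R * (R + 1)) with hK
  have hK1 : 1 ≤ K := by nlinarith
  set p : ℝ := 1 - 1 / (2 * K) with hp
  have h2K : 0 < 1 / (2 * K) := by positivity
  have h2K1 : 1 / (2 * K) ≤ 1 := by
    rw [div_le_one (by positivity)]
    linarith
  have hp0 : 0 ≤ p := by rw [hp]; linarith
  have hp1 : p < 1 := by rw [hp]; linarith
  have h1 : (Pr p).real (arm U 0 0) ≤ 1 - p := by
    have h2 : arm U 0 0 ⊆ {ω : Om | ∀ x ∈ ({0} : Finset Site), ω x = false} := by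
      intro ω hω x hx
      rw [Finset.mem_singleton] at hx
      subst hx
      by_contra hc
      rw [Bool.not_eq_false] at hc
      exact hω (subset_cl ⟨hc, by simp [box]⟩)
    have h3 := measureReal_mono h2 (measure_ne_top (Pr p) _)
    refine h3.trans ?_
    rw [Measure.real, prob_empty]
    have h4 := bern_false p
    rw [clamp_eq hp0 hp1.le, Measure.real] at h4
    simp [h4]
  have h2 : Pr p (perc U) = 1 := by
    refine crit hR1 hR h p 0 ?_
    have e : 5 * (4 * (R : ℝ) * (4 * ((0 : ℕ) : ℝ) + R + 1) * (Pr p).real (arm U 0 0)) =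
        K * (Pr p).real (arm U 0 0) := by
      push_cast
      rw [hK]
      ring
    rw [e]
    calc K * (Pr p).real (arm U 0 0) ≤ K * (1 - p) := mul_le_mul_of_nonneg_left h1 (by positivity)
      _ = 1 / 2 := by rw [hp]; field_simp; ring
      _ < 1 := by norm_num
  exact lt_of_le_of_lt (csInf_le pc_bdd ⟨hp0, hp1.le, h2⟩) hp1

/-- **the one-arm bound at criticality** -/
theorem arm_ge (hne : ∀ X ∈ U, X.Nonempty) (h1 : pc U < 1) {R : ℕ} (hR1 : 1 ≤ R) (hR : Range U R)
    (r : ℕ) : 1 / (20 * R * (4 * r + R + 1)) ≤ (Pr (pc U)).real (arm U 0 r) := by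
  have hbl : ¬ ∃ F : Finset Site, F.Nonempty ∧ Blocked U ↑F := by
    intro h
    rw [pc_eq_one_of_blocked h] at h1
    exact lt_irrefl _ h1
  have hR0 : (1 : ℝ) ≤ R := by exact_mod_cast hR1
  have hr0 : (0 : ℝ) ≤ r := Nat.cast_nonneg r
  by_contra hc
  push Not at hc
  have h2 : 5 * (4 * R * (4 * r + R + 1) * (Pr (pc U)).real (arm U 0 r)) < 1 := by
    rw [lt_div_iff₀ (by positivity)] at hc
    calc _ = (Pr (pc U)).real (arm U 0 r) * (20 * R * (4 * r + R + 1)) := by ring
      _ < 1 := hc
  have h3 : Continuous fun p => 5 * (4 * (R : ℝ) * (4 * r + R + 1) * (Pr p).real (arm U 0 r)) :=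
    continuous_const.mul (continuous_const.mul (dep_arm 0 r).cont)
  have h4 : ∀ᶠ p in 𝓝 (pc U), 5 * (4 * (R : ℝ) * (4 * r + R + 1) * (Pr p).real (arm U 0 r)) < 1 :=
    (h3.tendsto (pc U)).eventually (gt_mem_nhds h2)
  rcases (pc_nonneg (U := U)).eq_or_lt with h0 | h0
  · -- the case `pc = 0`
    rw [← h0] at h2
    have h5 : (Pr 0).real (arm U 0 r) = 1 := by
      have h6 : {ω : Om | ∀ x ∈ boxF 0 r, ω x = false} ⊆ arm U 0 r := by
        intro ω hω hc2
        have h7 : init ω ∩ box 0 r = ∅ := by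
          ext x
          simp only [mem_inter_iff, mem_empty_iff_false, iff_false, not_and]
          intro h8 h9
          have h10 : ω x = true := h8
          rw [hω x (mem_boxF.2 h9)] at h10
          exact Bool.false_ne_true h10
        rw [h7, cl_empty hne] at hc2
        exact hc2
      have h7 := measureReal_mono h6 (measure_ne_top (Pr 0) _)
      have h8 : (Pr 0).real {ω : Om | ∀ x ∈ boxF 0 r, ω x = false} = 1 := by
        rw [Measure.real, prob_empty, ENNReal.toReal_pow]
        have h9 := bern_false 0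
        rw [clamp_eq le_rfl zero_le_one, sub_zero, Measure.real] at h9
        rw [h9, one_pow]
      rw [h8] at h7
      exact le_antisymm measureReal_le_one h7
    rw [h5] at h2
    nlinarith
  · obtain ⟨p, hp1, hp2⟩ := ((h4.filter_mono nhdsWithin_le_nhds).and
      (Ioo_mem_nhdsLT h0 : Ioo 0 (pc U) ∈ 𝓝[<] (pc U))).exists
    have h5 := crit hR1 hR hbl p r hp1
    have h6 : pc U ≤ p := csInf_le pc_bdd ⟨hp2.1.le, hp2.2.le.trans pc_le_one, h5⟩
    exact absurd h6 (not_le.2 hp2.2)

theorem lt_T_iff (n : ℕ) (ω : Om) : (n : ℕ∞) < T U ω ↔ (0 : Site) ∉ At U (init ω) n := by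
  constructor
  · intro h hc
    exact absurd (iInf₂_le n hc) (not_le.2 h)
  · intro h
    have h1 : ((n + 1 : ℕ) : ℕ∞) ≤ T U ω := by
      refine le_iInf₂ fun t ht => ?_
      by_contra hc
      push Not at hc
      have hc2 : t < n + 1 := by exact_mod_cast hc
      exact h (At_mono_t (by omega) ht)
    refine lt_of_lt_of_le ?_ h1
    exact_mod_cast Nat.lt_succ_self n

theorem T_ge (hne : ∀ X ∈ U, X.Nonempty) (h1 : pc U < 1) {R : ℕ} (hR1 : 1 ≤ R) (hR : Range U R)
    (n : ℕ) : 1 / (20 * R * (5 * R + 1) * (n + 1)) ≤ (Pr (pc U)).real {ω | (n : ℕ∞) < T U ω} := by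
  have h2 := arm_ge hne h1 hR1 hR (n * R)
  have h3 : (Pr (pc U)).real (arm U 0 (n * R)) ≤ (Pr (pc U)).real {ω | (n : ℕ∞) < T U ω} := by
    refine measureReal_mono (fun ω hω => ?_) (measure_ne_top _ _)
    show (n : ℕ∞) < T U ω
    rw [lt_T_iff]
    intro hc
    exact hω (mem_iUnion.2 ⟨n, At_local hR n 0 hc⟩)
  refine le_trans ?_ (h2.trans h3)
  have hR0 : (1 : ℝ) ≤ R := by exact_mod_cast hR1
  have hn0 : (0 : ℝ) ≤ n := Nat.cast_nonneg n
  apply one_div_le_one_div_of_le (by positivity)
  push_cast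
  have h4 : 4 * ((n : ℝ) * R) + R + 1 ≤ (5 * R + 1) * (n + 1) := by nlinarith
  have h5 : (0 : ℝ) ≤ 20 * R := by positivity
  have h6 := mul_le_mul_of_nonneg_left h4 h5
  linarith

theorem mean_top (hne : ∀ X ∈ U, X.Nonempty) (h1 : pc U < 1) :
    ∫⁻ ω, (T U ω : ℝ≥0∞) ∂(Pr (pc U)) = ∞ := by
  obtain ⟨R, hR1, hR⟩ := exists_range U
  have hR0 : (1 : ℝ) ≤ R := by exact_mod_cast hR1
  set c : ℝ := 1 / (20 * R * (5 * R + 1)) with hc
  have hc0 : 0 < c := by positivity
  have h2 : ∀ N : ℕ, ENNReal.ofReal (c * ∑ n ∈ Finset.range N, 1 / ((n : ℝ) + 1)) ≤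
      ∫⁻ ω, (T U ω : ℝ≥0∞) ∂(Pr (pc U)) := by
    intro N
    have hmeas : ∀ n : ℕ, MeasurableSet {ω : Om | (n : ℕ∞) < T U ω} := by
      intro n
      have : {ω : Om | (n : ℕ∞) < T U ω} = {ω : Om | (0 : Site) ∈ At U (init ω) n}ᶜ := by
        ext ω
        exact lt_T_iff n ω
      rw [this]
      exact (meas_At 0 n).compl
    have h3 : ∑ n ∈ Finset.range N, (Pr (pc U)) {ω | (n : ℕ∞) < T U ω} ≤
        ∫⁻ ω, (T U ω : ℝ≥0∞) ∂(Pr (pc U)) := by
      have h4 : ∑ n ∈ Finset.range N, (Pr (pc U)) {ω | (n : ℕ∞) < T U ω} =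
          ∫⁻ ω, ∑ n ∈ Finset.range N, ({ω : Om | (n : ℕ∞) < T U ω}.indicator (fun _ => 1) ω : ℝ≥0∞)
            ∂(Pr (pc U)) := by
        rw [lintegral_finsetSum _ fun n _ => measurable_const.indicator (hmeas n)]
        refine Finset.sum_congr rfl fun n _ => ?_
        rw [lintegral_indicator (hmeas n), lintegral_const, Measure.restrict_apply MeasurableSet.univ,
          univ_inter, one_mul]
      rw [h4]
      refine lintegral_mono fun ω => ?_
      rcases eq_or_ne (T U ω) ⊤ with hT | hT
      · rw [hT]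
        simp
      · obtain ⟨m, hm⟩ := ENat.ne_top_iff_exists.1 hT
        show ∑ n ∈ Finset.range N, ({ω : Om | (n : ℕ∞) < T U ω}.indicator (fun _ => 1) ω : ℝ≥0∞) ≤
          (T U ω : ℝ≥0∞)
        have h5 : ∀ n ∈ Finset.range N,
            ({ω : Om | (n : ℕ∞) < T U ω}.indicator (fun _ => 1) ω : ℝ≥0∞) =
            if n < m then 1 else 0 := by
          intro n _
          by_cases h6 : n < m
          · rw [if_pos h6, indicator_of_mem]
            show (n : ℕ∞) < T U ω
            rw [← hm]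
            exact_mod_cast h6
          · rw [if_neg h6, indicator_of_notMem]
            intro h7
            have h8 : (n : ℕ∞) < T U ω := h7
            rw [← hm] at h8
            exact h6 (by exact_mod_cast h8)
        rw [Finset.sum_congr rfl h5, ← Finset.sum_filter, Finset.sum_const, nsmul_eq_mul, mul_one,
          ← hm]
        have h6 : (Finset.filter (fun n => n < m) (Finset.range N)).card ≤ m := by
          refine (Finset.card_le_card (t := Finset.range m) ?_).trans (Finset.card_range m).le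
          intro n hn
          rw [Finset.mem_filter] at hn
          exact Finset.mem_range.2 hn.2
        simpa using (by exact_mod_cast h6 :
          ((Finset.filter (fun n => n < m) (Finset.range N)).card : ℝ≥0∞) ≤ (m : ℝ≥0∞))
    refine le_trans ?_ h3
    rw [Finset.mul_sum, ENNReal.ofReal_sum_of_nonneg (fun n _ => by positivity)]
    refine Finset.sum_le_sum fun n _ => ?_
    rw [ENNReal.ofReal_le_iff_le_toReal (measure_ne_top _ _)]
    have h5 := T_ge hne h1 hR1 hR n
    have e : c * (1 / ((n : ℝ) + 1)) = 1 / (20 * R * (5 * R + 1) * (n + 1)) := by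
      rw [hc, div_mul_div_comm, mul_one]
    rw [e]
    exact h5
  have h3 : Tendsto (fun N : ℕ => ENNReal.ofReal (c * ∑ n ∈ Finset.range N, 1 / ((n : ℝ) + 1)))
      atTop (𝓝 ∞) :=
    ENNReal.tendsto_ofReal_atTop.comp
      (Real.tendsto_sum_range_one_div_nat_succ_atTop.const_mul_atTop hc0)
  exact top_le_iff.1 (le_of_tendsto' h3 h2)

theorem mean_zero (h : pc U = 1) : ∫⁻ ω, (T U ω : ℝ≥0∞) ∂(Pr (pc U)) = 0 := by
  rw [h]
  have h1 : (Pr 1) {ω : Om | ω 0 = true}ᶜ = 0 := by
    have h2 : ({ω : Om | ω 0 = true}ᶜ : Set Om) = {ω : Om | ∀ y ∈ ({0} : Finset Site), ω y = false} := by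
      ext ω
      simp
    rw [h2, prob_empty]
    have h3 := bern_false 1
    rw [clamp_eq zero_le_one le_rfl, sub_self, measureReal_eq_zero_iff] at h3
    rw [h3]
    simp
  have h2 : ∀ᵐ ω ∂(Pr 1), (T U ω : ℝ≥0∞) = 0 := by
    have h3 : {ω : Om | ω 0 = true} ∈ ae (Pr 1) := h1
    filter_upwards [h3] with ω hω
    have h4 : T U ω ≤ 0 := by
      have h5 : (0 : Site) ∈ At U (init ω) 0 := hω
      have := iInf₂_le (f := fun (t : ℕ) (_ : (0 : Site) ∈ At U (init ω) t) => (t : ℕ∞)) 0 h5
      simpa [T] using this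
    have h5 : T U ω = 0 := le_antisymm h4 (zero_le)
    rw [h5]
    simp
  rw [lintegral_congr_ae h2]
  simp

/-- **Answer to Q2.**  For every subcritical update family, and more generally for every update
family whose rules are non-empty: either there is a finite non-empty blocked set, the critical
probability is `1` and the mean occupation time at the critical probability is `0`; or there is none,
the critical probability is less than `1`, the mean occupation time of the origin at the critical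
probability is infinite, and `P(T > n) ≥ 1 / (20 R (5 R + 1) (n + 1))` for all `n`, if `R ≥ 1` bounds
the absolute values of the coordinates of all elements of the rules. -/
theorem result (U : Finset (Finset Site)) (h : Subcritical U ∨ ∀ X ∈ U, X.Nonempty) :
    ((∃ F : Finset Site, F.Nonempty ∧ Blocked U ↑F) ∧ pc U = 1 ∧
      ∫⁻ ω, (T U ω : ℝ≥0∞) ∂(Pr (pc U)) = 0) ∨
    ((¬ ∃ F : Finset Site, F.Nonempty ∧ Blocked U ↑F) ∧ pc U < 1 ∧
      ∫⁻ ω, (T U ω : ℝ≥0∞) ∂(Pr (pc U)) = ∞ ∧
      ∀ R : ℕ, 1 ≤ R → Range U R → ∀ n : ℕ, 1 / (20 * R * (5 * R + 1) * (n + 1)) ≤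
        (Pr (pc U)).real {ω | (n : ℕ∞) < T U ω}) := by
  have hne : ∀ X ∈ U, X.Nonempty := by
    rcases h with h | h
    · exact h.nonempty
    · exact h
  by_cases hF : ∃ F : Finset Site, F.Nonempty ∧ Blocked U ↑F
  · have h1 := pc_eq_one_of_blocked hF
    exact Or.inl ⟨hF, h1, mean_zero h1⟩
  · have h1 := pc_lt_one hF
    exact Or.inr ⟨hF, h1, mean_top hne h1, fun R hR1 hR => T_ge hne h1 hR1 hR⟩

end Pool.Agent.Results.MP_28b826_pr.MeanInfectionTime
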